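import Mathlib

/-!
# MP_716318_co, Q1 disproved

For `n = 6` the five 4-sets that avoid one fixed vertex block all `(2,2)`-acceptable Hamilton
paths, while `(n-2 choose 2) = 6`.
-/

namespace Pool.Agent.Results.MP_716318_co.PathBlocking

/-- The Hamilton path of `K_n` given by the ordering `v 0, v 1, …, v (n-1)` of `Fin n` is
`(2,2)`-acceptable with respect to `F`: no two vertex-disjoint edges `{v i, v (i+1)}`,
`{v j, v (j+1)}` (with `i + 1 < j`, `j + 1 < n`) have union in `F`. -/
def Acceptable {n : ℕ} (F : Finset (Finset (Fin n))) (v : Fin n ≃ Fin n) : Prop :=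
  ∀ (i j : ℕ) (hij : i + 1 < j) (hj : j + 1 < n),
    ({v ⟨i, by omega⟩, v ⟨i + 1, by omega⟩, v ⟨j, by omega⟩, v ⟨j + 1, hj⟩} : Finset (Fin n)) ∉ F

lemma key (v : Fin 6 ≃ Fin 6) (i j : ℕ) (hij : i + 1 < j) (hj : j + 1 < 6)
    (k : Fin 6) (hk : v k = 5) (h1 : k.val ≠ i) (h2 : k.val ≠ i + 1) (h3 : k.val ≠ j)
    (h4 : k.val ≠ j + 1) :
    ({v ⟨i, by omega⟩, v ⟨i + 1, by omega⟩, v ⟨j, by omega⟩, v ⟨j + 1, hj⟩} : Finset (Fin 6)) ∈
      (Finset.univ.erase (5 : Fin 6)).powersetCard 4 := by
  rw [Finset.mem_powersetCard]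
  constructor
  · intro x hx
    rw [Finset.mem_erase]
    refine ⟨?_, Finset.mem_univ _⟩
    simp only [Finset.mem_insert, Finset.mem_singleton] at hx
    rw [← hk]
    rcases hx with rfl | rfl | rfl | rfl <;> intro h <;>
      (have := congrArg Fin.val (v.injective h); simp at this; omega)
  · rw [Finset.card_insert_of_notMem, Finset.card_insert_of_notMem, Finset.card_insert_of_notMem,
      Finset.card_singleton]
    · simp only [Finset.mem_singleton, v.injective.eq_iff, Fin.mk.injEq]; omega
    · simp only [Finset.mem_insert, Finset.mem_singleton, v.injective.eq_iff, Fin.mk.injEq]; omega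
    · simp only [Finset.mem_insert, Finset.mem_singleton, v.injective.eq_iff, Fin.mk.injEq]; omega

/-- Q1 is false: for some `n ≥ 4` there is a family `F` of 4-subsets with
`|F| < (n-2 choose 2)` such that no Hamilton path of `K_n` is `(2,2)`-acceptable. -/
theorem result : ∃ n : ℕ, 4 ≤ n ∧ ∃ F : Finset (Finset (Fin n)),
    (∀ s ∈ F, s.card = 4) ∧ F.card < (n - 2).choose 2 ∧
    ∀ v : Fin n ≃ Fin n, ¬ Acceptable F v := by
  refine ⟨6, by norm_num, (Finset.univ.erase (5 : Fin 6)).powersetCard 4, ?_, ?_, ?_⟩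
  · intro s hs
    exact (Finset.mem_powersetCard.1 hs).2
  · rw [Finset.card_powersetCard, Finset.card_erase_of_mem (Finset.mem_univ _)]
    simp only [Finset.card_univ, Fintype.card_fin]
    decide
  · intro v h
    have hk : v (v.symm 5) = 5 := v.apply_symm_apply 5
    generalize v.symm 5 = k at hk
    have hk6 := k.isLt
    rcases Nat.lt_or_ge k.val 1 with h0 | h0
    · exact h 1 3 (by norm_num) (by norm_num) (key v 1 3 (by norm_num) (by norm_num) k hk (by omega) (by omega) (by omega)
        (by omega))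
    rcases Nat.lt_or_ge k.val 2 with h1 | h1
    · exact h 2 4 (by norm_num) (by norm_num) (key v 2 4 (by norm_num) (by norm_num) k hk (by omega) (by omega) (by omega)
        (by omega))
    rcases Nat.lt_or_ge k.val 4 with h2 | h2
    · exact h 0 4 (by norm_num) (by norm_num) (key v 0 4 (by norm_num) (by norm_num) k hk (by omega) (by omega) (by omega)
        (by omega))
    · exact h 0 2 (by norm_num) (by norm_num) (key v 0 2 (by norm_num) (by norm_num) k hk (by omega) (by omega) (by omega)
        (by omega))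

end Pool.Agent.Results.MP_716318_co.PathBlocking
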